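import Pool.Agent.Helper28.MT.Goals2
import Pool.Agent.Helper37.MT.H1

/-!
# PROJECT MT2 (MP_bb782b_co), packet MT2-H2: exponential moment count for one set
-/

set_option autoImplicit false

namespace Pool.Agent.Helper94.MT2

open Finset
open Pool.Agent.Helper28.MT
open Pool.Agent.Helper28.MT2
open Pool.Agent.Helper37.MT

theorem exp_neg_eight : Real.exp (-8) ≤ (1 / 2 : ℝ) ^ 11 := by
  have h1 : (27 / 10 : ℝ) ≤ Real.exp 1 := by
    have := Real.exp_one_gt_d9
    linarith
  have h2 : Real.exp (-8) = (Real.exp 1)⁻¹ ^ 8 := by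
    rw [← Real.exp_neg, ← Real.exp_nat_mul]
    norm_num
  rw [h2]
  have h3 : (Real.exp 1)⁻¹ ≤ (27 / 10 : ℝ)⁻¹ := inv_anti₀ (by norm_num) h1
  calc (Real.exp 1)⁻¹ ^ 8 ≤ ((27 / 10 : ℝ)⁻¹) ^ 8 :=
        pow_le_pow_left₀ (inv_nonneg.mpr (Real.exp_pos _).le) h3 _
    _ ≤ (1 / 2 : ℝ) ^ 11 := by norm_num

theorem mt2_h2 : G_H2 := by
  intro α _ _ N k h D U hN0 hh hN
  have hNr : (0 : ℝ) < (N : ℝ) := by exact_mod_cast hN0
  set w : Fin N → ℝ := fun a => if a ∈ D then (1 / 2 : ℝ) else 1 with hw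
  have hs := sum_prod N U w
  have hw1 : ∑ a, w a = (N : ℝ) - D.card / 2 := by
    have h1 : ∀ a, w a = 1 - (if a ∈ D then (1 / 2 : ℝ) else 0) := by
      intro a
      simp only [hw]
      split_ifs
      · norm_num
      · norm_num
    rw [Finset.sum_congr rfl fun a _ => h1 a, Finset.sum_sub_distrib, Finset.sum_ite_mem,
      Finset.univ_inter, Finset.sum_const, Finset.sum_const, Finset.card_univ, Fintype.card_fin]
    simp only [nsmul_eq_mul, mul_one]
    ring
  have hDN : (D.card : ℝ) ≤ N := by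
    have h1 : D.card ≤ N := by
      have := Finset.card_le_univ D
      rwa [Fintype.card_fin] at this
    exact_mod_cast h1
  have hD0 : (0 : ℝ) ≤ D.card := Nat.cast_nonneg _
  have hUα : U.card ≤ Fintype.card α := Finset.card_le_univ U
  -- upper bound of the sum
  have hup : ∑ f : α → Fin N, ∏ x ∈ U, w (f x) ≤
      (N : ℝ) ^ Fintype.card α * (1 / 2) ^ (11 * (h * k)) := by
    rw [hs, hw1]
    have h1 : (N : ℝ) - D.card / 2 = N * (1 - D.card / (2 * N)) := by
      field_simp
    have h2 : (1 : ℝ) - D.card / (2 * N) ≤ Real.exp (-(D.card / (2 * N))) := by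
      have := Real.add_one_le_exp (-((D.card : ℝ) / (2 * N)))
      linarith
    have h3 : (0 : ℝ) ≤ 1 - D.card / (2 * N) := by
      have h4 : (D.card : ℝ) / (2 * N) ≤ 1 := by
        rw [div_le_one (by positivity)]
        linarith
      linarith
    have h4 : ((1 : ℝ) - D.card / (2 * N)) ^ U.card ≤ (1 / 2) ^ (11 * (h * k)) := by
      calc ((1 : ℝ) - D.card / (2 * N)) ^ U.card ≤ (Real.exp (-(D.card / (2 * N)))) ^ U.card :=
            pow_le_pow_left₀ h3 h2 _
        _ = Real.exp (-((D.card * U.card : ℝ) / (2 * N))) := by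
            rw [← Real.exp_nat_mul]
            congr 1
            ring
        _ ≤ Real.exp (((h * k : ℕ) : ℝ) * (-8)) := by
            apply Real.exp_le_exp.2
            have h6 : (8 * ((h * k : ℕ) : ℝ)) ≤ (D.card * U.card : ℝ) / (2 * N) := by
              rw [le_div_iff₀ (by positivity)]
              have h5 : ((16 * h * k * N : ℕ) : ℝ) ≤ ((D.card * U.card : ℕ) : ℝ) := by
                exact_mod_cast hN
              push_cast at h5 ⊢
              linarith
            linarith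
        _ = (Real.exp (-8)) ^ (h * k) := by
            rw [← Real.exp_nat_mul]
        _ ≤ ((1 / 2) ^ 11) ^ (h * k) :=
            pow_le_pow_left₀ (Real.exp_pos _).le exp_neg_eight _
        _ = (1 / 2) ^ (11 * (h * k)) := by rw [← pow_mul]
    calc (N : ℝ) ^ (Fintype.card α - U.card) * ((N : ℝ) - D.card / 2) ^ U.card =
          (N : ℝ) ^ Fintype.card α * ((1 : ℝ) - D.card / (2 * N)) ^ U.card := by
          rw [h1, mul_pow, ← mul_assoc, ← pow_add, Nat.sub_add_cancel hUα]
      _ ≤ (N : ℝ) ^ Fintype.card α * (1 / 2) ^ (11 * (h * k)) :=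
          mul_le_mul_of_nonneg_left h4 (by positivity)
  -- lower bound of the sum
  set B := univ.filter (fun f : α → Fin N => (U.filter (fun x => f x ∈ D)).card ≤ 4 * h * k)
    with hB
  have hprod : ∀ f : α → Fin N, ∏ x ∈ U, w (f x) =
      (1 / 2 : ℝ) ^ (U.filter (fun x => f x ∈ D)).card := by
    intro f
    simp only [hw]
    rw [Finset.prod_ite, Finset.prod_const, Finset.prod_const_one, mul_one]
  have hlow : (B.card : ℝ) * (1 / 2) ^ (4 * h * k) ≤ ∑ f : α → Fin N, ∏ x ∈ U, w (f x) := by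
    calc (B.card : ℝ) * (1 / 2) ^ (4 * h * k) = ∑ f ∈ B, (1 / 2 : ℝ) ^ (4 * h * k) := by
          rw [Finset.sum_const, nsmul_eq_mul]
      _ ≤ ∑ f ∈ B, ∏ x ∈ U, w (f x) := by
          apply Finset.sum_le_sum
          intro f hf
          rw [hprod f]
          apply pow_le_pow_of_le_one (by norm_num) (by norm_num)
          rw [hB, Finset.mem_filter] at hf
          exact hf.2
      _ ≤ ∑ f : α → Fin N, ∏ x ∈ U, w (f x) := by
          apply Finset.sum_le_sum_of_subset_of_nonneg (Finset.subset_univ _)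
          intro f _ _
          rw [hprod f]
          positivity
  have h1 : (B.card : ℝ) * (1 / 2) ^ (4 * h * k) ≤
      (N : ℝ) ^ Fintype.card α * (1 / 2) ^ (11 * (h * k)) := hlow.trans hup
  have h2 : (B.card : ℝ) * 2 ^ (7 * h * k) ≤ (N : ℝ) ^ Fintype.card α := by
    have h3 := mul_le_mul_of_nonneg_right h1 (by positivity : (0 : ℝ) ≤ 2 ^ (11 * (h * k)))
    have h4 : (1 / 2 : ℝ) ^ (4 * h * k) * 2 ^ (11 * (h * k)) = 2 ^ (7 * h * k) := by
      have h5 : 11 * (h * k) = 4 * h * k + 7 * h * k := by ring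
      rw [h5, pow_add, ← mul_assoc, ← mul_pow]
      norm_num
    have h5 : (1 / 2 : ℝ) ^ (11 * (h * k)) * 2 ^ (11 * (h * k)) = 1 := by
      rw [← mul_pow]
      norm_num
    calc (B.card : ℝ) * 2 ^ (7 * h * k) =
          (B.card : ℝ) * (1 / 2) ^ (4 * h * k) * 2 ^ (11 * (h * k)) := by
          rw [← h4, ← mul_assoc]
      _ ≤ (N : ℝ) ^ Fintype.card α * (1 / 2) ^ (11 * (h * k)) * 2 ^ (11 * (h * k)) := h3
      _ = (N : ℝ) ^ Fintype.card α := by rw [mul_assoc, h5, mul_one]
  exact_mod_cast h2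

end Pool.Agent.Helper94.MT2
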